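import Pool.Agent.Helper63.GW.StB

/-!
# Project GW, module TUW: every tuple of blocks
-/

set_option autoImplicit false

namespace Pool.Agent.Helper95.GW

open Finset
open Pool.Agent.Helper63.GW

/-- powers of `X` and powers of `2` -/
theorem rpow_le_two_pow (X : ℕ) (hX : 0 < (X : ℝ)) (r : ℝ) (m : ℕ)
    (h : r * Real.log X ≤ (m : ℝ) * Real.log 2) : (X : ℝ) ^ r ≤ 2 ^ m := by
  rw [Real.rpow_def_of_pos hX, mul_comm]
  calc Real.exp (r * Real.log X) ≤ Real.exp ((m : ℝ) * Real.log 2) := Real.exp_le_exp.2 h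
    _ = 2 ^ m := by rw [Real.exp_nat_mul, Real.exp_log (by norm_num)]

/-- every tuple -/
theorem hTUW : StPart → StCl1 → StCl2 → StCl3 → StTuw := by
  intro hP h1 h2 h3 A B D ε hε hε'
  obtain ⟨c₀, η, hc₀, hη, hPart⟩ := hP ε hε hε'
  obtain ⟨Ba, Xa, hA⟩ := h1 A B D ε hε hε'
  obtain ⟨Bb, Xb, hB⟩ := h2 A B D c₀ hc₀
  obtain ⟨Bc, Xc, hC⟩ := h3 A B D
  refine ⟨max Ba (max Bb Bc), max (max Xa (max Xb Xc)) (⌈Real.exp (Real.log 1024 / η)⌉₊ + 3), ?_⟩
  intro B1 hB1 X hX q _ χ e W hq he4 hlo hhi hW1 hW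
  have hBa : Ba ≤ B1 := le_trans (le_max_left _ _) hB1
  have hBb : Bb ≤ B1 := le_trans (le_trans (le_max_left _ _) (le_max_right _ _)) hB1
  have hBc : Bc ≤ B1 := le_trans (le_trans (le_max_right _ _) (le_max_right _ _)) hB1
  have hX' := le_trans (le_max_left _ _) hX
  have hX1 := le_trans (le_max_right _ _) hX
  have hXa : Xa ≤ X := le_trans (le_max_left _ _) hX'
  have hXb : Xb ≤ X := le_trans (le_trans (le_max_left _ _) (le_max_right _ _)) hX'
  have hXc : Xc ≤ X := le_trans (le_trans (le_max_right _ _) (le_max_right _ _)) hX'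
  have hX3 : 3 ≤ X := le_trans (Nat.le_add_left _ _) hX1
  have hXpos : (0 : ℝ) < (X : ℝ) := by
    have : 0 < X := by omega
    exact_mod_cast this
  have hXge : (1 : ℝ) ≤ (X : ℝ) := by
    have : 1 ≤ X := by omega
    exact_mod_cast this
  have hl2 : 0 < Real.log 2 := Real.log_pos (by norm_num)
  have hl1024 : Real.log 1024 = 10 * Real.log 2 := by
    rw [show (1024 : ℝ) = 2 ^ 10 by norm_num, Real.log_pow]; norm_num
  have hl16 : Real.log 16 = 4 * Real.log 2 := by
    rw [show (16 : ℝ) = 2 ^ 4 by norm_num, Real.log_pow]; norm_num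
  have hl4 : Real.log 4 = 2 * Real.log 2 := by
    rw [show (4 : ℝ) = 2 ^ 2 by norm_num, Real.log_pow]; norm_num
  set L := Real.log X with hL
  have hLlow : Real.log 1024 / η ≤ L := by
    have e1 : Real.exp (Real.log 1024 / η) ≤ (X : ℝ) := by
      have := Nat.le_ceil (Real.exp (Real.log 1024 / η))
      have h4 : ((⌈Real.exp (Real.log 1024 / η)⌉₊ : ℕ) : ℝ) ≤ (X : ℝ) := by
        have : ⌈Real.exp (Real.log 1024 / η)⌉₊ ≤ X := by omega
        exact_mod_cast this
      linarith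
    rw [hL, Real.le_log_iff_exp_le hXpos]
    exact e1
  have hLpos : 0 < L := by
    have : 0 < Real.log 1024 / η := by rw [hl1024]; positivity
    linarith
  have hηL : 10 * Real.log 2 ≤ η * L := by
    rw [div_le_iff₀ hη, hl1024] at hLlow
    linarith
  -- bounds for the sum of the exponents
  have hsumlo : L ≤ 4 * Real.log 2 + ((∑ i, e i : ℕ) : ℝ) * Real.log 2 := by
    have e1 : (X : ℝ) ≤ 16 * 2 ^ (∑ i, e i) := by exact_mod_cast hlo
    have e2 := Real.log_le_log hXpos e1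
    rw [Real.log_mul (by norm_num) (by positivity), Real.log_pow, hl16] at e2
    exact e2
  have hsumhi : ((∑ i, e i : ℕ) : ℝ) * Real.log 2 ≤ 10 * Real.log 2 + L := by
    have e1 : (2 : ℝ) ^ (∑ i, e i) ≤ 1024 * (X : ℝ) := by exact_mod_cast hhi
    have e2 := Real.log_le_log (by positivity) e1
    rw [Real.log_mul (by norm_num) hXpos.ne', Real.log_pow, hl1024] at e2
    exact e2
  -- the exponents
  set a : Fin 8 → ℝ := fun i => (e i : ℝ) * Real.log 2 / L with ha
  have haL : ∀ i, a i * L = (e i : ℝ) * Real.log 2 := by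
    intro i
    simp only [ha]
    field_simp
  have hsa : ∀ R : Finset (Fin 8), (∑ i ∈ R, a i) * L =
      ((∑ i ∈ R, e i : ℕ) : ℝ) * Real.log 2 := by
    intro R
    rw [Finset.sum_mul]
    push_cast
    rw [Finset.sum_mul]
    exact Finset.sum_congr rfl fun i _ => haL i
  have hsa' : (∑ i, a i) * L = ((∑ i, e i : ℕ) : ℝ) * Real.log 2 := hsa Finset.univ
  have ha0 : ∀ i, 0 ≤ a i := by
    intro i
    simp only [ha]
    positivity
  have ha1 : |∑ i, a i - 1| ≤ η := by
    rw [abs_le]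
    constructor
    · by_contra hcon
      rw [not_le] at hcon
      have : (∑ i, a i) * L < (1 - η) * L := mul_lt_mul_of_pos_right (by linarith) hLpos
      nlinarith
    · by_contra hcon
      rw [not_le] at hcon
      have : (1 + η) * L < (∑ i, a i) * L := mul_lt_mul_of_pos_right (by linarith) hLpos
      nlinarith
  have ha4 : ∀ i : Fin 8, (i : ℕ) < 4 → a i ≤ 1 / 4 + η := by
    intro i hi
    have e1 := he4 i hi
    have e2 := Real.log_le_log (by positivity) e1
    rw [Real.log_mul (by norm_num) (by positivity), Real.log_pow, hl4,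
      Real.log_rpow hXpos] at e2
    by_contra hcon
    rw [not_le] at hcon
    have : (1 / 4 + η) * L < a i * L := mul_lt_mul_of_pos_right hcon hLpos
    rw [haL] at this
    nlinarith
  have hpow : ∀ (r : ℝ) (i : Fin 8), r ≤ a i → (X : ℝ) ^ r ≤ 2 ^ e i := by
    intro r i hr
    apply rpow_le_two_pow X hXpos
    have := mul_le_mul_of_nonneg_right hr hLpos.le
    rw [haL] at this
    exact this
  have hW5 : W ≤ (X : ℝ) ^ (1 / 5 : ℝ) :=
    hW.trans (Real.rpow_le_rpow_of_exponent_le hXge (by linarith))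
  rcases hPart a ha0 ha1 ha4 with ⟨i, hi4, hi⟩ | ⟨i, j, l, hij, hil, hjl, hi4, hj4, hl4', hi, hj, hl⟩ |
    ⟨R, k, hkR, hk, hR1, hR2⟩
  · exact hA B1 hBa X hXa q χ e i W hq hlo hhi hi4 (hpow _ i hi) hW1 hW
  · by_cases c1 : e l ≤ e i ∧ e l ≤ e j
    · exact hC B1 hBc X hXc q χ e i j l W hq hlo hhi hij hil hjl hl4' c1.1 c1.2 (hpow _ l hl) hW1 hW5
    · by_cases c2 : e i ≤ e j ∧ e i ≤ e l
      · exact hC B1 hBc X hXc q χ e j l i W hq hlo hhi hjl hij.symm hil.symm hi4 c2.1 c2.2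
          (hpow _ i hi) hW1 hW5
      · have c3 : e j ≤ e i ∧ e j ≤ e l := by omega
        exact hC B1 hBc X hXc q χ e i l j W hq hlo hhi hil hij hjl.symm hj4 c3.1 c3.2
          (hpow _ j hj) hW1 hW5
  · refine hB B1 hBb X hXb q χ e R k W hq hlo hhi hkR (hpow _ k hk) ?_ hW1 ?_
    · have e1 := mul_le_mul_of_nonneg_right hR2 hLpos.le
      rw [add_mul, hsa R, haL k, div_mul_eq_mul_div, hsa'] at e1
      have e2 : (2 * ((∑ i ∈ R, e i : ℕ) + (e k : ℝ))) * Real.log 2 ≤
          ((∑ i, e i : ℕ) : ℝ) * Real.log 2 := by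
        nlinarith
      have e3 := le_of_mul_le_mul_right e2 hl2
      exact_mod_cast e3
    · refine hW.trans ?_
      apply rpow_le_two_pow X hXpos
      have e1 := mul_le_mul_of_nonneg_right hR1 hLpos.le
      rw [hsa R] at e1
      exact e1

end Pool.Agent.Helper95.GW
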